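import Pool.Agent.Helper86.QA.St4

/-!
# Project QD part A, module IRR: irreducibility
-/

set_option autoImplicit false

open MeasureTheory Matrix Set Topology Filter
open scoped ENNReal ComplexConjugate ComplexOrder

namespace Pool.Agent.Helper33.QA

open Pool.Agent.Helper86.QA Pool.Agent.Helper20

private theorem nsq (w : ℂ) : ((‖w‖ ^ 2 : ℝ) : ℂ) = w * conj w := by
  rw [Complex.mul_conj, Complex.normSq_eq_norm_sq]

private theorem Nn_Qp (A : SL) (z : ℂ) :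
    Nn A (QD.Qp z) = (‖A 0 0 * z + A 0 1‖ ^ 2 + ‖A 1 0 * z + A 1 1‖ ^ 2) / (1 + ‖z‖ ^ 2) := by
  have h1 : ((A : Mat) * QD.Qp z * (A : Mat)ᴴ).trace =
      (((‖A 0 0 * z + A 0 1‖ ^ 2 + ‖A 1 0 * z + A 1 1‖ ^ 2) / (1 + ‖z‖ ^ 2) : ℝ) : ℂ) := by
    rw [Complex.ofReal_div, Complex.ofReal_add, nsq, nsq, Matrix.trace_fin_two]
    unfold QD.Qp
    simp only [Matrix.mul_apply, Fin.sum_univ_two, Matrix.smul_apply, Matrix.of_apply, Matrix.cons_val',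
      Matrix.cons_val_zero, Matrix.cons_val_one, Matrix.cons_val_fin_one, Matrix.conjTranspose_apply,
      smul_eq_mul, nsq, RCLike.star_def, map_add, map_mul]
    ring
  unfold Nn
  rw [h1, Complex.ofReal_re]

/-- the affine group of the plane has no such discrete subgroups -/
private theorem aff {Γ : Type} [Group Γ] (ρ : Γ →* SL) (h10 : ∀ γ, ρ γ 1 0 = 0)
    (hd : ∀ X : ℝ, {γ : Γ | Pool.Agent.Helper35.PM.hs (ρ γ : Mat) ≤ X}.Finite)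
    (γ1 γ2 : Γ) (h1 : 1 < ‖ρ γ1 0 0‖) (q : ℂ) (hq : ρ γ1 0 0 * (ρ γ1 0 0 * q + ρ γ1 0 1) = q)
    (h2 : ρ γ2 0 0 * (ρ γ2 0 0 * q + ρ γ2 0 1) ≠ q) : False := by
  obtain ⟨a, ha⟩ : ∃ a : Γ → ℂ, ∀ γ, ρ γ 0 0 = a γ := ⟨fun γ => ρ γ 0 0, fun _ => rfl⟩
  obtain ⟨b, hb⟩ : ∃ b : Γ → ℂ, ∀ γ, ρ γ 0 1 = b γ := ⟨fun γ => ρ γ 0 1, fun _ => rfl⟩
  obtain ⟨d, hd'⟩ : ∃ d : Γ → ℂ, ∀ γ, ρ γ 1 1 = d γ := ⟨fun γ => ρ γ 1 1, fun _ => rfl⟩
  have e : ∀ γ δ i j, ρ (γ * δ) i j = ρ γ i 0 * ρ δ 0 j + ρ γ i 1 * ρ δ 1 j := by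
    intro γ δ i j
    have h3 : (ρ (γ * δ) : Mat) = (ρ γ : Mat) * (ρ δ : Mat) := by rw [map_mul]; rfl
    have h4 := congrFun (congrFun h3 i) j
    rw [Matrix.mul_apply, Fin.sum_univ_two] at h4
    exact h4
  have had : ∀ γ, a γ * d γ = 1 := by
    intro γ
    have h3 : (ρ γ : Mat).det = 1 := (ρ γ).det_coe
    rw [Matrix.det_fin_two] at h3
    have h4 : (ρ γ : Mat) 1 0 = 0 := h10 γ
    rw [h4, mul_zero, sub_zero] at h3
    rw [← ha, ← hd']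
    exact h3
  have hmul : ∀ γ δ, a (γ * δ) = a γ * a δ := by
    intro γ δ
    rw [← ha, e, h10 δ, mul_zero, add_zero, ha, ha]
  have hbm : ∀ γ δ, b (γ * δ) = a γ * b δ + b γ * d δ := by
    intro γ δ
    rw [← hb, e, ha, hb, hb, hd']
  have h1e : a 1 = 1 ∧ b 1 = 0 := by
    rw [← ha, ← hb, map_one]
    constructor
    · exact Matrix.one_apply_eq 0
    · exact Matrix.one_apply_ne (by decide)
  obtain ⟨A, hA⟩ : ∃ A : Γ → ℂ → ℂ, ∀ γ z, A γ z = a γ * (a γ * z + b γ) :=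
    ⟨fun γ z => a γ * (a γ * z + b γ), fun _ _ => rfl⟩
  have hAm : ∀ γ δ z, A (γ * δ) z = A γ (A δ z) := by
    intro γ δ z
    rw [hA, hA, hA, hmul, hbm]
    linear_combination (a γ * b γ) * had δ
  have hA1 : ∀ z, A 1 z = z := by
    intro z
    rw [hA, h1e.1, h1e.2]
    ring
  rw [ha, hb] at hq h2
  rw [ha] at h1
  rw [← hA] at hq h2
  have hAn : ∀ (n : ℕ) (z : ℂ), A (γ1 ^ n) z = q + (a γ1 ^ n) ^ 2 * (z - q) := by
    intro n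
    induction n with
    | zero =>
      intro z
      rw [pow_zero, hA1]
      ring
    | succ n ih =>
      intro z
      rw [pow_succ, hAm, ih]
      have h3 : A γ1 z - q = a γ1 ^ 2 * (z - q) := by
        conv_lhs => rw [← hq]
        rw [hA, hA]
        ring
      rw [h3]
      ring
  obtain ⟨p, hp⟩ : ∃ p, p = A γ2 q := ⟨_, rfl⟩
  rw [← hp] at h2
  have hinv : ∀ γ, a γ⁻¹ * a γ = 1 := by
    intro γ
    rw [← hmul, inv_mul_cancel, h1e.1]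
  have key : ∀ n : ℕ, ∃ r : ℂ, q + (a γ1 ^ n) ^ 2 * (r - q) = p ∧
      b ((γ1 ^ n)⁻¹ * γ2 * γ1 ^ n * γ2⁻¹) = r - p ∧ a ((γ1 ^ n)⁻¹ * γ2 * γ1 ^ n * γ2⁻¹) = 1 ∧
      d ((γ1 ^ n)⁻¹ * γ2 * γ1 ^ n * γ2⁻¹) = 1 := by
    intro n
    refine ⟨A (γ1 ^ n)⁻¹ p, ?_, ?_, ?_, ?_⟩
    · rw [← hAn, ← hAm, mul_inv_cancel, hA1]
    · have h3 : a ((γ1 ^ n)⁻¹ * γ2 * γ1 ^ n * γ2⁻¹) = 1 := by
        rw [hmul, hmul, hmul]
        have h4 := hinv (γ1 ^ n)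
        have h5 := hinv γ2
        linear_combination (a γ2⁻¹ * a γ2) * h4 + h5
      have h6 : A ((γ1 ^ n)⁻¹ * γ2 * γ1 ^ n * γ2⁻¹) p = A (γ1 ^ n)⁻¹ p := by
        rw [hAm, hAm, hAm]
        have h7 : A γ2⁻¹ p = q := by rw [hp, ← hAm, inv_mul_cancel, hA1]
        have h8 : A (γ1 ^ n) q = q := by rw [hAn, sub_self, mul_zero, add_zero]
        rw [h7, h8, ← hp]
      rw [← h6, hA, h3]
      ring
    · rw [hmul, hmul, hmul]
      have h4 := hinv (γ1 ^ n)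
      have h5 := hinv γ2
      linear_combination (a γ2⁻¹ * a γ2) * h4 + h5
    · have h3 : a ((γ1 ^ n)⁻¹ * γ2 * γ1 ^ n * γ2⁻¹) = 1 := by
        rw [hmul, hmul, hmul]
        have h4 := hinv (γ1 ^ n)
        have h5 := hinv γ2
        linear_combination (a γ2⁻¹ * a γ2) * h4 + h5
      have h4 := had ((γ1 ^ n)⁻¹ * γ2 * γ1 ^ n * γ2⁻¹)
      rw [h3, one_mul] at h4
      exact h4
  choose r hr1 hr2 hr3 hr4 using key
  have ha1 : a γ1 ≠ 0 := by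
    intro h3
    rw [h3, norm_zero] at h1
    linarith
  have hpq : p - q ≠ 0 := sub_ne_zero.2 h2
  have hinj : Function.Injective (fun n : ℕ => (γ1 ^ n)⁻¹ * γ2 * γ1 ^ n * γ2⁻¹) := by
    intro m n hmn
    have h3 : r m - p = r n - p := by
      rw [← hr2 m, ← hr2 n]
      exact congrArg b hmn
    have h4 : r m = r n := by linear_combination h3
    have h5 := hr1 m
    have h6 := hr1 n
    rw [h4] at h5
    have h7 : (a γ1 ^ m) ^ 2 * (r n - q) = (a γ1 ^ n) ^ 2 * (r n - q) := by linear_combination h5 - h6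
    have h8 : r n - q ≠ 0 := by
      intro h9
      apply hpq
      rw [h9, mul_zero, add_zero] at h6
      rw [h6, sub_self]
    have h9 := mul_right_cancel₀ h8 h7
    have h10 := congrArg norm h9
    rw [norm_pow, norm_pow, norm_pow, norm_pow, ← pow_mul, ← pow_mul] at h10
    have h11 := (pow_right_injective₀ (by linarith) h1.ne') h10
    omega
  refine Set.infinite_of_injective_forall_mem hinj (fun n => ?_) (hd (2 + (2 * ‖p - q‖) ^ 2))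
  show Pool.Agent.Helper35.PM.hs (ρ ((γ1 ^ n)⁻¹ * γ2 * γ1 ^ n * γ2⁻¹) : Mat) ≤ _
  unfold Pool.Agent.Helper35.PM.hs
  rw [Fin.sum_univ_two, Fin.sum_univ_two, Fin.sum_univ_two]
  have e1 : (ρ ((γ1 ^ n)⁻¹ * γ2 * γ1 ^ n * γ2⁻¹) : Mat) 0 0 = 1 := (ha _).trans (hr3 n)
  have e2 : (ρ ((γ1 ^ n)⁻¹ * γ2 * γ1 ^ n * γ2⁻¹) : Mat) 0 1 = r n - p := (hb _).trans (hr2 n)
  have e3 : (ρ ((γ1 ^ n)⁻¹ * γ2 * γ1 ^ n * γ2⁻¹) : Mat) 1 0 = 0 := h10 _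
  have e4 : (ρ ((γ1 ^ n)⁻¹ * γ2 * γ1 ^ n * γ2⁻¹) : Mat) 1 1 = 1 := (hd' _).trans (hr4 n)
  rw [e1, e2, e3, e4, norm_one, norm_zero]
  have h3 : ‖r n - q‖ ≤ ‖p - q‖ := by
    have h4 : (a γ1 ^ n) ^ 2 * (r n - q) = p - q := by linear_combination hr1 n
    rw [← h4, norm_mul, norm_pow, norm_pow]
    have h5 : 1 ≤ (‖a γ1‖ ^ n) ^ 2 := one_le_pow₀ (one_le_pow₀ h1.le)
    nlinarith [norm_nonneg (r n - q)]
  have h4 : ‖r n - p‖ ≤ 2 * ‖p - q‖ := by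
    have h5 : r n - p = (r n - q) - (p - q) := by ring
    rw [h5]
    exact (norm_sub_le _ _).trans (by linarith)
  have h5 : ‖r n - p‖ ^ 2 ≤ (2 * ‖p - q‖) ^ 2 := pow_le_pow_left₀ (norm_nonneg _) h4 2
  linarith

theorem hIRR (hLQC : QD.StLQC) (hLMX : QD.StLMX) (hLLS : QD.StLLS) (hLCJ : QD.StLCJ) (hCNC : StCNC) :
    StIRR := by
  intro Γ _ ρ hCC hcirc v hv
  by_contra hcon
  push Not at hcon
  -- the matrix B
  obtain ⟨B, lam, hlam, hB0, hB1⟩ : ∃ (B : SL) (lam : ℂ), lam ≠ 0 ∧ (B : Mat).mulVec v 0 = lam ∧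
      (B : Mat).mulVec v 1 = 0 := by
    by_cases h1 : v 1 = 0
    · refine ⟨1, v 0, ?_, ?_, ?_⟩
      · intro h0
        apply hv
        ext i
        fin_cases i
        · exact h0
        · exact h1
      · simp
      · simp [h1]
    · refine ⟨⟨!![0, -1; 1, -(v 0 / v 1)], by simp [Matrix.det_fin_two]⟩, -(v 1), neg_ne_zero.2 h1, ?_, ?_⟩
      · simp [Matrix.mulVec, dotProduct, Fin.sum_univ_two]
      · simp [Matrix.mulVec, dotProduct, Fin.sum_univ_two]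
        field_simp
        ring
  obtain ⟨ρ', hρ'⟩ : ∃ ρ' : Γ →* SL, ρ' = QD.cj B ρ := ⟨_, rfl⟩
  obtain ⟨hCC', -, hcirc', -⟩ := hLCJ.1 Γ ρ B hCC
  have hcirc'' := hcirc' hcirc
  rw [← hρ'] at hCC' hcirc''
  have h10 : ∀ γ, ρ' γ 1 0 = 0 := by
    intro γ
    obtain ⟨c, hc⟩ := hcon γ
    have h1 : (ρ' γ : Mat) * (B : Mat) = (B : Mat) * (ρ γ : Mat) := by
      rw [hρ']
      have h2 : QD.cj B ρ γ = B * ρ γ * B⁻¹ := rfl
      rw [h2, ← Matrix.SpecialLinearGroup.coe_mul, ← Matrix.SpecialLinearGroup.coe_mul, inv_mul_cancel_right]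
    have h2 : (ρ' γ : Mat).mulVec ((B : Mat).mulVec v) = c • (B : Mat).mulVec v := by
      rw [Matrix.mulVec_mulVec, h1, ← Matrix.mulVec_mulVec, hc, Matrix.mulVec_smul]
    have h3 := congrFun h2 1
    rw [Pi.smul_apply, hB1, smul_zero] at h3
    have h4 : (ρ' γ : Mat).mulVec ((B : Mat).mulVec v) 1 = (ρ' γ : Mat) 1 0 * (B : Mat).mulVec v 0 +
        (ρ' γ : Mat) 1 1 * (B : Mat).mulVec v 1 := by
      simp only [Matrix.mulVec, dotProduct, Fin.sum_univ_two]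
    rw [h4, hB0, hB1, mul_zero, add_zero] at h3
    exact (mul_eq_zero.1 h3).resolve_right hlam
  have hCon := hCNC Γ ρ' hCC'
  obtain ⟨-, hsub, -⟩ := hLLS Γ ρ' hCC'.discrete
  -- limit points
  have hinf : (Pool.Agent.Helper35.PM.limitSet ρ').Infinite := by
    obtain ⟨φ⟩ := hcirc''
    have hC : Infinite Circle := by
      have h1 : (univ : Set Circle).Infinite :=
        isPreconnected_univ.infinite_of_nontrivial ⟨1, mem_univ _, -1, mem_univ _, by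
          intro h
          have h2 := congrArg (fun z : Circle => (z : ℂ)) h
          simp at h2
          norm_num [Complex.ext_iff] at h2⟩
      exact Set.infinite_univ_iff.1 h1
    have h2 : Infinite (Pool.Agent.Helper35.PM.limitSet ρ') := Infinite.of_injective _ φ.symm.injective
    exact Set.infinite_coe_iff.1 h2
  have hpt : ∀ q : ℂ, ∃ z, z ≠ q ∧ QD.Qp z ∈ Pool.Agent.Helper35.PM.limitSet ρ' := by
    intro q
    have hfin : ({QD.Qinf, QD.Qp q} : Set Mat).Finite := Set.toFinite _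
    obtain ⟨Q, hQ, hQn⟩ := (hinf.sdiff hfin).nonempty
    rcases hLQC.1 Q (hsub hQ) with h | ⟨z, rfl⟩
    · exact absurd (by rw [h]; exact Set.mem_insert _ _) hQn
    · refine ⟨z, ?_, hQ⟩
      rintro rfl
      exact hQn (Set.mem_insert_of_mem _ rfl)
  have hadm : ∀ γ, ρ' γ 0 0 * ρ' γ 1 1 = 1 := by
    intro γ
    have h3 : (ρ' γ : Mat).det = 1 := (ρ' γ).det_coe
    rw [Matrix.det_fin_two] at h3
    have h4 : (ρ' γ : Mat) 1 0 = 0 := h10 γ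
    rw [h4, mul_zero, sub_zero] at h3
    exact h3
  obtain ⟨z0, -, hz0⟩ := hpt 0
  obtain ⟨γ1, hγ1⟩ := hCon _ hz0 (1 / (4 * (1 + ‖z0‖ ^ 2))) (by positivity)
  rw [Nn_Qp, h10 γ1, zero_mul, zero_add, div_lt_div_iff₀ (by positivity) (by positivity)] at hγ1
  have hd1 : ‖ρ' γ1 1 1‖ ^ 2 < 1 / 4 := by
    have h1 : 0 < 1 + ‖z0‖ ^ 2 := by positivity
    have h2 : 0 ≤ ‖ρ' γ1 0 0 * z0 + ρ' γ1 0 1‖ ^ 2 := by positivity
    by_contra hc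
    push Not at hc
    nlinarith
  have had1 : ‖ρ' γ1 0 0‖ * ‖ρ' γ1 1 1‖ = 1 := by rw [← norm_mul, hadm, norm_one]
  have ha1 : 1 < ‖ρ' γ1 0 0‖ := by
    by_contra hc
    push Not at hc
    have h1 : ‖ρ' γ1 1 1‖ < 1 := by
      by_contra hc2
      push Not at hc2
      nlinarith
    nlinarith [norm_nonneg (ρ' γ1 0 0), norm_nonneg (ρ' γ1 1 1)]
  have hne1 : 1 - ρ' γ1 0 0 ^ 2 ≠ 0 := by
    intro h
    have h1 : ρ' γ1 0 0 ^ 2 = 1 := by linear_combination -h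
    have h2 := congrArg norm h1
    rw [norm_pow, norm_one] at h2
    nlinarith
  obtain ⟨q, hq⟩ : ∃ q : ℂ, ρ' γ1 0 0 * (ρ' γ1 0 0 * q + ρ' γ1 0 1) = q := by
    refine ⟨ρ' γ1 0 0 * ρ' γ1 0 1 / (1 - ρ' γ1 0 0 ^ 2), ?_⟩
    rw [mul_add, ← mul_assoc, ← pow_two, eq_div_iff hne1]
    have h1 : ρ' γ1 0 0 * ρ' γ1 0 1 / (1 - ρ' γ1 0 0 ^ 2) * (1 - ρ' γ1 0 0 ^ 2) = ρ' γ1 0 0 * ρ' γ1 0 1 :=
      div_mul_cancel₀ _ hne1
    linear_combination (ρ' γ1 0 0 ^ 2) * h1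
  obtain ⟨z2, hz2, hz2L⟩ := hpt q
  have hδ : 0 < ‖q - z2‖ := norm_pos_iff.2 (sub_ne_zero.2 (Ne.symm hz2))
  obtain ⟨m, hm⟩ : ∃ m : ℝ, m = ‖q - z2‖ / (1 + ‖q‖) := ⟨_, rfl⟩
  have hm0 : 0 < m := by rw [hm]; positivity
  obtain ⟨γ2, hγ2⟩ := hCon _ hz2L (m / (1 + ‖z2‖ ^ 2)) (by positivity)
  rw [Nn_Qp, h10 γ2, zero_mul, zero_add, div_lt_div_iff_of_pos_right (by positivity)] at hγ2
  have had2 : ‖ρ' γ2 0 0‖ * ‖ρ' γ2 1 1‖ = 1 := by rw [← norm_mul, hadm, norm_one]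
  refine aff ρ' h10 hCC'.discrete γ1 γ2 ha1 q hq ?_
  intro h2
  have h3 : ρ' γ2 0 0 * (q - z2) = ρ' γ2 1 1 * q - (ρ' γ2 0 0 * z2 + ρ' γ2 0 1) := by
    have h4 := hadm γ2
    linear_combination (ρ' γ2 1 1) * h2 - (ρ' γ2 0 0 * q + ρ' γ2 0 1) * h4
  have h4 : ‖ρ' γ2 0 0‖ * ‖q - z2‖ ≤ ‖ρ' γ2 1 1‖ * ‖q‖ + ‖ρ' γ2 0 0 * z2 + ρ' γ2 0 1‖ := by
    rw [← norm_mul, h3, ← norm_mul]
    exact norm_sub_le _ _
  generalize ‖ρ' γ2 0 0 * z2 + ρ' γ2 0 1‖ = x at hγ2 h4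
  have hy0 : 0 ≤ ‖ρ' γ2 1 1‖ := norm_nonneg _
  generalize ‖ρ' γ2 1 1‖ = y at hγ2 h4 had2 hy0
  generalize ‖ρ' γ2 0 0‖ = w at h4 had2
  have h5 : ‖q - z2‖ ≤ y * (y * ‖q‖ + x) := by
    have h6 := mul_le_mul_of_nonneg_left h4 hy0
    have h7 : y * (w * ‖q - z2‖) = ‖q - z2‖ := by
      rw [← mul_assoc, mul_comm y w, had2, one_mul]
    linarith
  have h6 : m * (1 + ‖q‖) = ‖q - z2‖ := by
    rw [hm]
    have : (1 + ‖q‖) ≠ 0 := by positivity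
    field_simp
  have h7 : y * x ≤ (x ^ 2 + y ^ 2) / 2 := by nlinarith [sq_nonneg (x - y)]
  have h8 : y ^ 2 * ‖q‖ ≤ m * ‖q‖ := by
    refine mul_le_mul_of_nonneg_right ?_ (norm_nonneg q)
    nlinarith [sq_nonneg x]
  nlinarith

end Pool.Agent.Helper33.QA
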