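import Pool.Agent.Helper86.QA.St3

/-!
# Project QD part A, module FLG: the flux density near `A`
-/

set_option autoImplicit false

open MeasureTheory Matrix Set Topology Filter
open scoped ENNReal ComplexConjugate

namespace Pool.Agent.Helper33.QA

open Pool.Agent.Helper86.QA

private theorem oo_up : oo ∈ up := by
  show (0 : ℝ) < 1
  norm_num

private theorem ll_pos : 1 ≤ ll := by
  unfold ll
  have := Real.sqrt_nonneg 3
  linarith

private theorem meas_be : Measurable (fun p : ℂ × ℂ => be p.1 p.2) := by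
  unfold be
  refine Measurable.const_mul ?_ 2
  refine Complex.measurable_arg.comp ?_
  refine Measurable.div_const ?_ _
  exact measurable_fst.sub (Complex.continuous_conj.measurable.comp measurable_snd)

private theorem meas_Ar : Measurable (fun p : ℂ × ℂ × ℂ => Ar p.1 p.2.1 p.2.2) := by
  unfold Ar
  have h1 : Measurable (fun p : ℂ × ℂ × ℂ => (p.1, p.2.1)) := by fun_prop
  have h2 : Measurable (fun p : ℂ × ℂ × ℂ => (p.2.1, p.2.2)) := by fun_prop
  have h3 : Measurable (fun p : ℂ × ℂ × ℂ => (p.2.2, p.1)) := by fun_prop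
  exact ((meas_be.comp h1).add (meas_be.comp h2)).add (meas_be.comp h3)

private theorem dt2_le (u v : ℂ) : |dt2 u v| ≤ 2 * (‖u‖ * ‖v‖) := by
  unfold dt2
  have h1 := Complex.abs_re_le_norm u
  have h2 := Complex.abs_re_le_norm v
  have h3 := Complex.abs_im_le_norm u
  have h4 := Complex.abs_im_le_norm v
  calc |u.re * v.im - u.im * v.re| ≤ |u.re * v.im| + |u.im * v.re| := abs_sub _ _
    _ = |u.re| * |v.im| + |u.im| * |v.re| := by rw [abs_mul, abs_mul]
    _ ≤ ‖u‖ * ‖v‖ + ‖u‖ * ‖v‖ := by gcongr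
    _ = _ := by ring

private theorem meas_mv (x : Pt) : Measurable (mv x) := by
  unfold mv
  fun_prop

/-- the product of the three kernels -/
private noncomputable def Kb (p : Pt × Pt × Pt) : ℝ := kk oo p.1 * (kk oo p.2.1 * kk oo p.2.2)

private theorem Kb_int (hKRN : StKRN) : Integrable Kb vol3 := by
  have h1 := (hKRN.2.2 oo oo_up).1
  exact h1.mul_prod (h1.mul_prod h1)

private theorem kk_cases (y : Pt) : (ch oo y ≤ 2 ∧ kk oo y = 1) ∨ kk oo y = 0 := by
  unfold kk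
  by_cases h : ch oo y ≤ 2
  · left
    exact ⟨h, if_pos h⟩
  · right
    exact if_neg h

private theorem kk_nonneg (y : Pt) : 0 ≤ kk oo y := by
  rcases kk_cases y with h | h
  · rw [h.2]; norm_num
  · rw [h]

private theorem Kb_nonneg (p : Pt × Pt × Pt) : 0 ≤ Kb p :=
  mul_nonneg (kk_nonneg _) (mul_nonneg (kk_nonneg _) (kk_nonneg _))

/-- either the kernel vanishes or all points are in the ball -/
private theorem KK_cases (hDLF : StDLF) (p : Pt × Pt × Pt) (h0 : p.1 ∈ up) (h2 : p.2.1 ∈ up) (h3 : p.2.2 ∈ up) :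
    KK p.1 oo p.2.1 p.2.2 = 0 ∨ (ch oo p.1 ≤ 2 ∧ ch oo p.2.1 ≤ 2 ∧ ch oo p.2.2 ≤ 2 ∧ Kb p = 1 ∧
      |KK p.1 oo p.2.1 p.2.2| ≤ 53) := by
  unfold KK Kb
  rcases kk_cases p.1 with a | a
  · rcases kk_cases p.2.1 with b | b
    · rcases kk_cases p.2.2 with c | c
      · right
        refine ⟨a.1, b.1, c.1, ?_, ?_⟩
        · rw [a.2, b.2, c.2]; norm_num
        · rw [a.2, b.2, c.2, mul_one, mul_one, mul_one]
          exact hDLF.2.2.2.1 _ h0 _ oo_up _ h2 _ h3 a.1 b.1 c.1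
      · left; rw [c, mul_zero]
    · left; rw [b, mul_zero, zero_mul]
  · left; rw [a, mul_zero, zero_mul, zero_mul]

private theorem ball (hCHI : StCHI) (y : Pt) (hy : y ∈ up) (h : ch oo y ≤ 2) :
    y.2 ≤ 2 * ll ∧ ‖y.1‖ ≤ 2 * ll := by
  obtain ⟨h1, h2, h3⟩ := hCHI.2.2.2.1 oo oo_up y hy h
  have h4 : oo.2 = 1 := rfl
  have h5 : oo.1 = 0 := rfl
  rw [h4] at h1 h3
  rw [h5, zero_sub, norm_neg] at h3
  have hl := ll_pos
  have hy0 : 0 < y.2 := hy
  constructor
  · linarith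
  · by_contra hc
    push Not at hc
    nlinarith [norm_nonneg y.1]

private theorem ae3 : ∀ᵐ p ∂vol3, p.1 ∈ up ∧ p.2.1 ∈ up ∧ p.2.2 ∈ up := by
  have h1 : ∀ᵐ p ∂vol3, p.1 ∈ up := Measure.quasiMeasurePreserving_fst.ae ae_up
  have h2 : ∀ᵐ q ∂(vol.prod vol), q.1 ∈ up := Measure.quasiMeasurePreserving_fst.ae ae_up
  have h3 : ∀ᵐ q ∂(vol.prod vol), q.2 ∈ up := Measure.quasiMeasurePreserving_snd.ae ae_up
  have h4 : ∀ᵐ p ∂vol3, p.2.1 ∈ up := Measure.quasiMeasurePreserving_snd.ae h2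
  have h5 : ∀ᵐ p ∂vol3, p.2.2 ∈ up := Measure.quasiMeasurePreserving_snd.ae h3
  filter_upwards [h1, h4, h5] with p a b c using ⟨a, b, c⟩

private theorem ae_ne (s : ℝ) : ∀ᵐ p ∂vol3, p.1.2 ≠ s := by
  have h1 : ∀ᵐ u ∂(volume : Measure ℝ), u ≠ s := by
    rw [ae_iff]
    simp
  have h2 : ∀ᵐ x ∂(volume : Measure Pt), x.2 ≠ s := Measure.quasiMeasurePreserving_snd.ae h1
  have hac : vol ≪ (volume : Measure Pt) :=
    (withDensity_absolutelyContinuous _ _).trans Measure.restrict_le_self.absolutelyContinuous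
  have h3 : ∀ᵐ x ∂vol, x.2 ≠ s := hac.ae_le h2
  exact Measure.quasiMeasurePreserving_fst.ae h3

private theorem fi_meas (hHME : StHME) {B : Set ℂ} (hB : MeasurableSet B) (δ : ℝ) : Measurable (fi B δ) := by
  unfold fi
  refine Measurable.ite ?_ measurable_const measurable_const
  exact measurableSet_lt (hHME.2.2.1 B hB).1 measurable_const

private theorem fi_cases (B : Set ℂ) (δ : ℝ) (x : Pt) : fi B δ x = 1 ∨ fi B δ x = 0 := by
  unfold fi
  by_cases h : hv B x < δ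
  · left; exact if_pos h
  · right; exact if_neg h

private theorem fi_abs (B : Set ℂ) (δ : ℝ) (x : Pt) : |fi B δ x| ≤ 1 := by
  rcases fi_cases B δ x with h | h <;> rw [h] <;> norm_num

private theorem fi_sub (B : Set ℂ) (δ : ℝ) (x y : Pt) : |fi B δ x - fi B δ y| ≤ 1 := by
  rcases fi_cases B δ x with h | h <;> rcases fi_cases B δ y with h' | h' <;> rw [h, h'] <;> norm_num

/-- the integrand of FLS -/
private noncomputable def HH (B : Set ℂ) (Pi : Pt → ℂ) (δ : ℝ) (x : Pt) (p : Pt × Pt × Pt) : ℝ :=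
  KK p.1 oo p.2.1 p.2.2 * (fi B δ x - fi B δ (mv x p.1)) * Ar (Pi x) (Pi (mv x p.2.1)) (Pi (mv x p.2.2))

private theorem HH_meas (hHME : StHME) (hDLF : StDLF) {B : Set ℂ} (hB : MeasurableSet B) {Pi : Pt → ℂ}
    (hPi : Measurable Pi) (δ : ℝ) (x : Pt) : Measurable (HH B Pi δ x) := by
  unfold HH
  have h1 : Measurable (fun p : Pt × Pt × Pt => (p.1, oo, p.2.1, p.2.2)) := by fun_prop
  have h2 := hDLF.2.2.2.2.2.2.comp h1
  have h3 : Measurable (fun p : Pt × Pt × Pt => fi B δ x - fi B δ (mv x p.1)) :=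
    measurable_const.sub ((fi_meas hHME hB δ).comp ((meas_mv x).comp measurable_fst))
  have h4 : Measurable (fun p : Pt × Pt × Pt => (Pi x, Pi (mv x p.2.1), Pi (mv x p.2.2))) := by
    refine measurable_const.prodMk (Measurable.prodMk ?_ ?_)
    · exact hPi.comp ((meas_mv x).comp (measurable_fst.comp measurable_snd))
    · exact hPi.comp ((meas_mv x).comp (measurable_snd.comp measurable_snd))
  exact (h2.mul h3).mul (meas_Ar.comp h4)

/-- bound of the integrand -/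
private theorem HH_bound (hCHI : StCHI) (hDLF : StDLF) {B : Set ℂ} {F : ℂ → ℂ} {Pi : Pt → ℂ} {K : Set ℂ}
    {C t0 M : ℝ} (hM : ∀ z ∈ K, |rX F z| ≤ M)
    (hC : 0 < C)
    (hASO : ∀ z ∈ K, ∀ t : ℝ, 0 < t →
    t < t0 → ∀ y2 y3 : Pt, 0 < y2.2 → 0 < y3.2 → y2.2 ≤ 2 * ll → y3.2 ≤ 2 * ll → ‖y2.1‖ ≤ 2 * ll → ‖y3.1‖ ≤ 2 * ll →
    |Ar (Pi (z, t)) (Pi (mv (z, t) y2)) (Pi (mv (z, t) y3)) -
      t ^ 2 * (rX F z / 2 * dt2 y2.1 y3.1)| ≤ C * t ^ 3) (z : ℂ) (hz : z ∈ K) (t : ℝ) (ht : 0 < t)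
    (htt : t < t0) (δ : ℝ) : ∀ᵐ p ∂vol3, ‖HH B Pi δ (z, t) p‖ ≤ 53 * (C * t0 + M * (2 * ll) ^ 2) * t ^ 2 * Kb p := by
  filter_upwards [ae3] with p hp
  obtain ⟨h0, h2, h3⟩ := hp
  rw [Real.norm_eq_abs]
  have hM0 : 0 ≤ M := (abs_nonneg _).trans (hM z hz)
  have ht0 : 0 < t0 := ht.trans htt
  have hpos : 0 ≤ 53 * (C * t0 + M * (2 * ll) ^ 2) * t ^ 2 := by positivity
  rcases KK_cases hDLF p h0 h2 h3 with h | ⟨c0, c2, c3, hKb, hKK⟩
  · unfold HH
    rw [h, zero_mul, zero_mul, abs_zero]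
    exact mul_nonneg hpos (Kb_nonneg p)
  · rw [hKb, mul_one]
    obtain ⟨a1, a2⟩ := ball hCHI _ h2 c2
    obtain ⟨b1, b2⟩ := ball hCHI _ h3 c3
    have h5 := hASO z hz t ht htt p.2.1 p.2.2 h2 h3 a1 b1 a2 b2
    have hl := ll_pos
    have h6 : |t ^ 2 * (rX F z / 2 * dt2 p.2.1.1 p.2.2.1)| ≤ t ^ 2 * (M * (2 * ll) ^ 2) := by
      rw [abs_mul, abs_of_nonneg (sq_nonneg t)]
      refine mul_le_mul_of_nonneg_left ?_ (sq_nonneg t)
      rw [abs_mul, abs_div, abs_two]
      have h7 := dt2_le p.2.1.1 p.2.2.1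
      have h8 : ‖p.2.1.1‖ * ‖p.2.2.1‖ ≤ (2 * ll) * (2 * ll) :=
        mul_le_mul a2 b2 (norm_nonneg _) (by linarith)
      have h9 := hM z hz
      calc |rX F z| / 2 * |dt2 p.2.1.1 p.2.2.1| ≤ M / 2 * (2 * ((2 * ll) * (2 * ll))) := by
            refine mul_le_mul (by linarith) (h7.trans (by linarith)) (abs_nonneg _) (by linarith)
        _ = M * (2 * ll) ^ 2 := by ring
    have h7 : |Ar (Pi (z, t)) (Pi (mv (z, t) p.2.1)) (Pi (mv (z, t) p.2.2))| ≤
        (C * t0 + M * (2 * ll) ^ 2) * t ^ 2 := by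
      have h8 := abs_sub_abs_le_abs_sub (Ar (Pi (z, t)) (Pi (mv (z, t) p.2.1)) (Pi (mv (z, t) p.2.2)))
        (t ^ 2 * (rX F z / 2 * dt2 p.2.1.1 p.2.2.1))
      have h9 : C * t ^ 3 ≤ C * t0 * t ^ 2 := by
        have : C * t ^ 3 = C * t * t ^ 2 := by ring
        rw [this]
        gcongr
      linarith
    unfold HH
    rw [abs_mul, abs_mul]
    calc |KK p.1 oo p.2.1 p.2.2| * |fi B δ (z, t) - fi B δ (mv (z, t) p.1)| *
          |Ar (Pi (z, t)) (Pi (mv (z, t) p.2.1)) (Pi (mv (z, t) p.2.2))|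
        ≤ (53 * 1) * ((C * t0 + M * (2 * ll) ^ 2) * t ^ 2) := by
          refine mul_le_mul (mul_le_mul hKK (fi_sub _ _ _ _) (abs_nonneg _) (by norm_num)) h7
            (abs_nonneg _) (by norm_num)
      _ = _ := by ring

private theorem rX_bound {A : Set ℂ} (hA : IsOpen A) {F : ℂ → ℂ} (hd : DifferentiableOn ℂ F A)
    (hi : F '' A = HP) {K : Set ℂ} (hK : IsCompact K) (hKA : K ⊆ A) : ∃ M : ℝ, ∀ z ∈ K, |rX F z| ≤ M := by
  have h1 : ContinuousOn (deriv F) A := (hd.deriv hA).continuousOn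
  have h2 : ContinuousOn (rX F) A := by
    unfold rX
    refine ContinuousOn.div (h1.norm.pow 2) ((Complex.continuous_im.comp_continuousOn hd.continuousOn).pow 2) ?_
    intro z hz
    have h3 : F z ∈ HP := by
      rw [← hi]
      exact mem_image_of_mem F hz
    have h4 : 0 < (F z).im := h3
    positivity
  obtain ⟨M, hM⟩ := hK.exists_bound_of_continuousOn (h2.mono hKA)
  exact ⟨M, fun z hz => hM z hz⟩

/-- the limit of the indicator functions -/
private theorem fi_lim {B : Set ℂ} {z : ℂ} {a r : ℝ} (ha : 0 < a) (hr : 0 < r)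
    (hlim : Tendsto (fun x : Pt => hv B x / x.2 ^ 2) (𝓝[up] (z, 0)) (𝓝 (a / Real.pi))) (y : Pt)
    (hy : y ∈ up) (hne : r * y.2 ≠ Real.sqrt (Real.pi / a)) :
    Tendsto (fun δ : ℝ => fi B δ (mv (z, Real.sqrt δ * r) y)) (𝓝[>] 0)
      (𝓝 (if r * y.2 < Real.sqrt (Real.pi / a) then 1 else 0)) := by
  have hy0 : 0 < y.2 := hy
  have hpi := Real.pi_pos
  have hry : 0 < r * y.2 := mul_pos hr hy0
  have hm : Tendsto (fun δ : ℝ => mv (z, Real.sqrt δ * r) y) (𝓝[>] 0) (𝓝[up] (z, 0)) := by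
    rw [tendsto_nhdsWithin_iff]
    constructor
    · have hc : Continuous (fun δ : ℝ => mv (z, Real.sqrt δ * r) y) := by
        unfold mv
        refine Continuous.prodMk ?_ ?_
        · refine continuous_const.add (Continuous.mul ?_ continuous_const)
          exact Complex.continuous_ofReal.comp (Real.continuous_sqrt.mul continuous_const)
        · exact (Real.continuous_sqrt.mul continuous_const).mul continuous_const
      have h0 : mv (z, Real.sqrt 0 * r) y = (z, 0) := by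
        unfold mv
        simp
      have h1 := hc.tendsto 0
      rw [h0] at h1
      exact h1.mono_left nhdsWithin_le_nhds
    · filter_upwards [self_mem_nhdsWithin] with δ hδ
      have h1 : 0 < Real.sqrt δ := Real.sqrt_pos.2 hδ
      show 0 < Real.sqrt δ * r * y.2
      positivity
  have h2 := hlim.comp hm
  have hkey : ∀ δ : ℝ, 0 < δ → (hv B (mv (z, Real.sqrt δ * r) y) < δ ↔
      hv B (mv (z, Real.sqrt δ * r) y) / (mv (z, Real.sqrt δ * r) y).2 ^ 2 < 1 / (r * y.2) ^ 2) := by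
    intro δ hδ
    have h3 : (mv (z, Real.sqrt δ * r) y).2 ^ 2 = δ * (r * y.2) ^ 2 := by
      show (Real.sqrt δ * r * y.2) ^ 2 = _
      have : (Real.sqrt δ * r * y.2) ^ 2 = Real.sqrt δ ^ 2 * (r * y.2) ^ 2 := by ring
      rw [this, Real.sq_sqrt hδ.le]
    rw [h3, div_lt_div_iff₀ (by positivity) (by positivity), one_mul]
    constructor
    · intro h
      exact mul_lt_mul_of_pos_right h (by positivity)
    · intro h
      exact lt_of_mul_lt_mul_right h (by positivity)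
  have hs0 : 0 ≤ Real.sqrt (Real.pi / a) := Real.sqrt_nonneg _
  have hs2 : Real.sqrt (Real.pi / a) ^ 2 = Real.pi / a := Real.sq_sqrt (by positivity)
  by_cases hlt : r * y.2 < Real.sqrt (Real.pi / a)
  · rw [if_pos hlt]
    have h4 : a / Real.pi < 1 / (r * y.2) ^ 2 := by
      have h5 : (r * y.2) ^ 2 < Real.pi / a := by
        rw [← hs2]
        exact pow_lt_pow_left₀ hlt hry.le two_ne_zero
      rw [div_lt_div_iff₀ hpi (by positivity)]
      rw [lt_div_iff₀ ha] at h5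
      linarith
    refine tendsto_const_nhds.congr' ?_
    filter_upwards [h2.eventually_lt_const h4, self_mem_nhdsWithin] with δ h5 h6
    unfold fi
    rw [if_pos ((hkey δ h6).2 h5)]
  · rw [if_neg hlt]
    have hgt : Real.sqrt (Real.pi / a) < r * y.2 := lt_of_le_of_ne (not_lt.1 hlt) (Ne.symm hne)
    have h4 : 1 / (r * y.2) ^ 2 < a / Real.pi := by
      have h5 : Real.pi / a < (r * y.2) ^ 2 := by
        rw [← hs2]
        exact pow_lt_pow_left₀ hgt hs0 two_ne_zero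
      rw [div_lt_div_iff₀ (by positivity) hpi]
      rw [div_lt_iff₀ ha] at h5
      linarith
    refine tendsto_const_nhds.congr' ?_
    filter_upwards [h2.eventually_const_lt h4, self_mem_nhdsWithin] with δ h5 h6
    unfold fi
    rw [if_neg]
    intro h7
    exact absurd ((hkey δ h6).1 h7) (not_lt.2 (le_of_lt h5))

/-- the limit of the area term -/
private theorem Ar_lim {g : ℝ → ℝ} {C t0 r L : ℝ} (hr : 0 < r) (ht0 : 0 < t0)
    (h : ∀ t : ℝ, 0 < t → t < t0 → |g t - t ^ 2 * L| ≤ C * t ^ 3) :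
    Tendsto (fun δ : ℝ => g (Real.sqrt δ * r) / δ) (𝓝[>] 0) (𝓝 (r ^ 2 * L)) := by
  have hc : Tendsto (fun δ : ℝ => Real.sqrt δ) (𝓝[>] 0) (𝓝 0) := by
    have h1 := Real.continuous_sqrt.tendsto 0
    rw [Real.sqrt_zero] at h1
    exact h1.mono_left nhdsWithin_le_nhds
  have hcr : Tendsto (fun δ : ℝ => Real.sqrt δ * r) (𝓝[>] 0) (𝓝 0) := by
    simpa using hc.mul_const r
  have hb : Tendsto (fun δ : ℝ => C * r ^ 3 * Real.sqrt δ) (𝓝[>] 0) (𝓝 0) := by
    simpa using hc.const_mul (C * r ^ 3)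
  rw [tendsto_iff_norm_sub_tendsto_zero]
  refine squeeze_zero' (Eventually.of_forall fun _ => norm_nonneg _) ?_ hb
  filter_upwards [hcr.eventually_lt_const ht0, self_mem_nhdsWithin] with δ h1 h2
  have h2' : 0 < δ := h2
  have hs : 0 < Real.sqrt δ := Real.sqrt_pos.2 h2'
  have h3 := h (Real.sqrt δ * r) (mul_pos hs hr) h1
  have h4 : Real.sqrt δ ^ 2 = δ := Real.sq_sqrt h2'.le
  have h5 : g (Real.sqrt δ * r) / δ - r ^ 2 * L = (g (Real.sqrt δ * r) - (Real.sqrt δ * r) ^ 2 * L) / δ := by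
    rw [mul_pow, h4]
    field_simp
  rw [Real.norm_eq_abs, h5, abs_div, abs_of_pos h2', div_le_iff₀ h2']
  calc |g (Real.sqrt δ * r) - (Real.sqrt δ * r) ^ 2 * L| ≤ C * (Real.sqrt δ * r) ^ 3 := h3
    _ = C * r ^ 3 * Real.sqrt δ * (Real.sqrt δ ^ 2) := by ring
    _ = C * r ^ 3 * Real.sqrt δ * δ := by rw [h4]

theorem hFLG (hACT : StACT) (hCHI : StCHI) (hVOL : StVOL) (hKRN : StKRN) (hHME : StHME) (hAWB : StAWB)
    (hDLF : StDLF) (hASV : StASV) (hASO : StASO) (hQQB : StQQB) (hFLS : StFLS) : StFLG := by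
  intro Γ _ ρ A B hKD F σ hCF Pi hPIH hPIA
  have hBm : MeasurableSet B := hKD.opB.measurableSet
  have hFLS' : ∀ (δ : ℝ), ∀ x ∈ up, Gf Pi (fi B δ) x = ∫ p, HH B Pi δ x p ∂vol3 := by
    intro δ x hx
    exact hFLS Γ ρ σ hCF.rea Pi hPIH (fi B δ) (fi_meas hHME hBm δ) ⟨1, fi_abs B δ⟩ x hx
  have hKI := Kb_int hKRN
  have hl := ll_pos
  constructor
  · intro K R hK hKA hR
    obtain ⟨C, hC, t0, ht0, hA⟩ := hASO Γ ρ A B hKD F σ hCF Pi hPIH hPIA K (2 * ll) hK hKA
    obtain ⟨M, hM⟩ := rX_bound hKD.opA hCF.dif hCF.img hK hKA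
    have hI0 : 0 ≤ ∫ p, Kb p ∂vol3 := integral_nonneg fun p => Kb_nonneg p
    refine ⟨53 * (C * t0 + |M| * (2 * ll) ^ 2) * (∫ p, Kb p ∂vol3) + 1, by positivity, (t0 / R) ^ 2, by positivity, ?_⟩
    intro z hz r hr hrR δ hδ hδ1
    have hs : 0 < Real.sqrt δ := Real.sqrt_pos.2 hδ
    have ht : 0 < Real.sqrt δ * r := mul_pos hs hr
    have htt : Real.sqrt δ * r < t0 := by
      have h1 : Real.sqrt δ < t0 / R := by
        rw [Real.sqrt_lt' (by positivity)]
        exact hδ1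
      calc Real.sqrt δ * r ≤ Real.sqrt δ * R := mul_le_mul_of_nonneg_left hrR hs.le
        _ < t0 / R * R := mul_lt_mul_of_pos_right h1 hR
        _ = t0 := div_mul_cancel₀ _ hR.ne'
    have hM' : ∀ z ∈ K, |rX F z| ≤ |M| := fun z hz => (hM z hz).trans (le_abs_self M)
    have hb := HH_bound (B := B) hCHI hDLF hM' hC hA z hz (Real.sqrt δ * r) ht htt δ
    rw [hFLS' δ _ ht]
    have hle := norm_integral_le_of_norm_le (hKI.const_mul (53 * (C * t0 + |M| * (2 * ll) ^ 2) *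
      (Real.sqrt δ * r) ^ 2)) hb
    rw [Real.norm_eq_abs, integral_const_mul] at hle
    have h4 : (Real.sqrt δ * r) ^ 2 = δ * r ^ 2 := by rw [mul_pow, Real.sq_sqrt hδ.le]
    rw [h4] at hle
    have h5 : 0 ≤ δ * r ^ 2 := by positivity
    calc _ ≤ 53 * (C * t0 + |M| * (2 * ll) ^ 2) * (δ * r ^ 2) * ∫ p, Kb p ∂vol3 := hle
      _ = 53 * (C * t0 + |M| * (2 * ll) ^ 2) * (∫ p, Kb p ∂vol3) * (δ * r ^ 2) := by ring
      _ ≤ _ := by
        rw [add_mul, one_mul]
        linarith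
  · intro z hz r hr hne
    obtain ⟨C, hC, t0, ht0, hA⟩ := hASO Γ ρ A B hKD F σ hCF Pi hPIH hPIA {z} (2 * ll)
      isCompact_singleton (singleton_subset_iff.2 hz)
    obtain ⟨M, hM⟩ := rX_bound hKD.opA hCF.dif hCF.img (isCompact_singleton (x := z)) (singleton_subset_iff.2 hz)
    have hzz : z ∈ ({z} : Set ℂ) := mem_singleton z
    obtain ⟨-, hlim⟩ := hASV Γ ρ A B hKD
    have hlim' := hlim z hz
    obtain ⟨a, ha⟩ : ∃ a : ℝ, a = (aw B z).toReal := ⟨_, rfl⟩
    have ha0 : 0 < a := by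
      rw [ha]
      exact ((hAWB Γ ρ A B hKD).2.2.1 z hz).2
    rw [← ha] at hlim' hne ⊢
    have hpi := Real.pi_pos
    have hs2 : Real.sqrt (Real.pi / a) ^ 2 = Real.pi / a := Real.sq_sqrt (by positivity)
    have hrc : r * oo.2 ≠ Real.sqrt (Real.pi / a) := by
      show r * 1 ≠ _
      rw [mul_one]
      intro h
      apply hne
      rw [h, hs2, div_mul_cancel₀ _ ha0.ne']
    have hmoo : ∀ x : Pt, mv x oo = x := by
      intro x
      unfold mv oo
      simp
    -- dominated convergence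
    have hev : (fun δ : ℝ => Gf Pi (fi B δ) (z, Real.sqrt δ * r) / δ) =ᶠ[𝓝[>] 0]
        fun δ => ∫ p, HH B Pi δ (z, Real.sqrt δ * r) p / δ ∂vol3 := by
      filter_upwards [self_mem_nhdsWithin] with δ hδ
      have hδ' : 0 < δ := hδ
      have hs : 0 < Real.sqrt δ := Real.sqrt_pos.2 hδ'
      rw [hFLS' δ _ (mul_pos hs hr), integral_div]
    have hcr : Tendsto (fun δ : ℝ => Real.sqrt δ * r) (𝓝[>] 0) (𝓝 0) := by
      have hc : Continuous (fun δ : ℝ => Real.sqrt δ * r) := Real.continuous_sqrt.mul continuous_const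
      have h1 := hc.tendsto 0
      rw [Real.sqrt_zero, zero_mul] at h1
      exact h1.mono_left nhdsWithin_le_nhds
    have hII : r ^ 2 * (rX F z / 2 * II (Real.sqrt (Real.pi / a)) r) = ∫ p, KK p.1 oo p.2.1 p.2.2 *
        ((if r < Real.sqrt (Real.pi / a) then 1 else 0) - (if r * p.1.2 < Real.sqrt (Real.pi / a) then 1 else 0)) *
        (r ^ 2 * (rX F z / 2 * dt2 p.2.1.1 p.2.2.1)) ∂vol3 := by
      unfold II
      rw [← mul_assoc, ← integral_const_mul]
      congr 1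
      funext p
      ring
    rw [hII]
    refine Tendsto.congr' hev.symm ?_
    refine tendsto_integral_filter_of_dominated_convergence
      (fun p => 53 * (C * t0 + M * (2 * ll) ^ 2) * r ^ 2 * Kb p) ?_ ?_ (hKI.const_mul _) ?_
    · exact Eventually.of_forall fun δ =>
        ((HH_meas hHME hDLF hBm hPIH.me δ _).div_const δ).aestronglyMeasurable
    · filter_upwards [hcr.eventually_lt_const ht0, self_mem_nhdsWithin] with δ h1 h2
      have h2' : 0 < δ := h2
      have hs : 0 < Real.sqrt δ := Real.sqrt_pos.2 h2'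
      filter_upwards [HH_bound (B := B) hCHI hDLF hM hC hA z hzz (Real.sqrt δ * r) (mul_pos hs hr) h1 δ] with p hp
      rw [norm_div, Real.norm_eq_abs δ, abs_of_pos h2', div_le_iff₀ h2']
      have h4 : (Real.sqrt δ * r) ^ 2 = δ * r ^ 2 := by rw [mul_pow, Real.sq_sqrt h2'.le]
      rw [h4] at hp
      calc _ ≤ _ := hp
        _ = _ := by ring
    · filter_upwards [ae3, ae_ne (Real.sqrt (Real.pi / a) / r)] with p hp hpn
      obtain ⟨p0, p2, p3⟩ := hp
      rcases KK_cases hDLF p p0 p2 p3 with h | ⟨c0, c2, c3, hKb, hKK⟩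
      · unfold HH
        simp only [h, zero_mul, zero_div]
        exact tendsto_const_nhds
      · obtain ⟨a1, a2⟩ := ball hCHI _ p2 c2
        obtain ⟨b1, b2⟩ := ball hCHI _ p3 c3
        have f1 := fi_lim ha0 hr hlim' oo oo_up hrc
        have f2 := fi_lim ha0 hr hlim' p.1 p0 (by
          intro h
          apply hpn
          rw [← h]
          field_simp)
        have f3 : Tendsto (fun δ : ℝ => Ar (Pi (z, Real.sqrt δ * r)) (Pi (mv (z, Real.sqrt δ * r) p.2.1))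
            (Pi (mv (z, Real.sqrt δ * r) p.2.2)) / δ) (𝓝[>] 0) (𝓝 (r ^ 2 * (rX F z / 2 * dt2 p.2.1.1 p.2.2.1))) :=
          Ar_lim (g := fun t => Ar (Pi (z, t)) (Pi (mv (z, t) p.2.1)) (Pi (mv (z, t) p.2.2))) hr ht0
            fun t h1 h2 => hA z hzz t h1 h2 p.2.1 p.2.2 p2 p3 a1 b1 a2 b2
        have f4 := ((f1.sub f2).const_mul (KK p.1 oo p.2.1 p.2.2)).mul f3
        have e1 : r * oo.2 = r := mul_one r
        rw [e1] at f4
        refine f4.congr fun δ => ?_
        unfold HH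
        rw [hmoo]
        ring

end Pool.Agent.Helper33.QA
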